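import Pool.Agent.FX65.Defs
import Pool.Agent.FF56.Auto

set_option autoImplicit false

/-!
# FX56/Phase: phases of facets and their gluing data

`Phases P q x`: phases `x u` modulo `2 q` of the facets. A tile has a phase modulo `2 q`; its sign is `+` if the phase
is in `{0, ..., q - 1}` and `-` otherwise. Behind the facet `u` of a tile with the phase `th` there is a tile with the
phase `th + x u` or `th - x u` (according to the sign of the tile); the facet is glued by a point reflection if the
sign changes and by a translation to the opposite facet otherwise.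
-/

open Set Metric
open scoped RealInnerProductSpace

namespace Pool.FX56

open Pool.FF24 (HPoly)
open Pool.FF56 (Csym Tra)
open Pool.FX65 (SGlue)

section

variable {F : Type*} {q : ℕ}

/-- the tiles with this phase have the sign `+` -/
def Up (th : ZMod (2 * q)) : Prop := th.val < q

open Classical in
/-- the phase behind the facet `u` -/
noncomputable def nxt (x : F → ZMod (2 * q)) (th : ZMod (2 * q)) (u : F) : ZMod (2 * q) :=
  if Up th then th + x u else th - x u

/-- the facets which are glued by a point reflection at the phase `th` -/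
def Inv (x : F → ZMod (2 * q)) (th : ZMod (2 * q)) : Set F := {u | Up (nxt x th u) ↔ ¬ Up th}

theorem val_q (hq : 0 < q) : ((q : ZMod (2 * q))).val = q := by
  have : NeZero (2 * q) := ⟨by omega⟩
  exact ZMod.val_cast_of_lt (by omega)

theorem q_add_q : (q : ZMod (2 * q)) + q = 0 := by
  have : ((2 * q : ℕ) : ZMod (2 * q)) = 0 := ZMod.natCast_self _
  rw [← this]
  push_cast
  ring

theorem neg_q : -(q : ZMod (2 * q)) = q := neg_eq_of_add_eq_zero_left q_add_q

theorem up_add_q (hq : 0 < q) (th : ZMod (2 * q)) : Up (th + (q : ZMod (2 * q))) ↔ ¬ Up th := by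
  have : NeZero (2 * q) := ⟨by omega⟩
  unfold Up
  rw [ZMod.val_add, val_q hq]
  have h1 := ZMod.val_lt th
  by_cases h : th.val < q
  · rw [Nat.mod_eq_of_lt (by omega)]
    omega
  · have e : th.val + q = (th.val - q) + 2 * q := by omega
    rw [e, Nat.add_mod_right, Nat.mod_eq_of_lt (by omega)]
    omega

theorem up_sub_q (hq : 0 < q) (th : ZMod (2 * q)) : Up (th - (q : ZMod (2 * q))) ↔ ¬ Up th := by
  rw [sub_eq_add_neg, neg_q]
  exact up_add_q hq th

theorem up_zero (hq : 0 < q) : Up (0 : ZMod (2 * q)) := by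
  unfold Up
  rw [ZMod.val_zero]
  exact hq

variable {x : F → ZMod (2 * q)} {th : ZMod (2 * q)} {u : F}

theorem ne_zero_of_inv (h : u ∈ Inv x th) : x u ≠ 0 := by
  intro h0
  unfold Inv nxt at h
  rw [Set.mem_ofPred_eq, h0, add_zero, sub_zero, ite_self] at h
  exact iff_not_self h

theorem ne_q_of_not_inv (hq : 0 < q) (h : u ∉ Inv x th) : x u ≠ q := by
  intro h0
  apply h
  unfold Inv nxt
  rw [Set.mem_ofPred_eq, h0]
  by_cases hu : Up th
  · rw [if_pos hu]
    exact up_add_q hq th
  · rw [if_neg hu]
    exact up_sub_q hq th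

theorem inv_of_eq_q (hq : 0 < q) (h : x u = q) (th : ZMod (2 * q)) : u ∈ Inv x th := by
  by_contra hc
  exact ne_q_of_not_inv hq hc h

theorem up_nxt (h : u ∈ Inv x th) : Up (nxt x th u) ↔ ¬ Up th := h

theorem up_nxt' (h : u ∉ Inv x th) : Up (nxt x th u) ↔ Up th := by
  unfold Inv at h
  rw [Set.mem_ofPred_eq] at h
  tauto

theorem nxt_nxt (h : u ∈ Inv x th) : nxt x (nxt x th u) u = th := by
  have h1 := up_nxt h
  by_cases hu : Up th
  · have h2 : ¬ Up (nxt x th u) := fun h3 => (h1.1 h3) hu
    have e1 : nxt x th u = th + x u := if_pos hu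
    have e2 : nxt x (nxt x th u) u = nxt x th u - x u := if_neg h2
    rw [e2, e1, add_sub_cancel_right]
  · have h2 : Up (nxt x th u) := h1.2 hu
    have e1 : nxt x th u = th - x u := if_neg hu
    have e2 : nxt x (nxt x th u) u = nxt x th u + x u := if_pos h2
    rw [e2, e1, sub_add_cancel]

theorem nxt_nxt' [Neg F] (h : u ∉ Inv x th) (ho : x (-u) = -x u) : nxt x (nxt x th u) (-u) = th := by
  have h1 := up_nxt' h
  by_cases hu : Up th
  · have h2 : Up (nxt x th u) := h1.2 hu
    have e1 : nxt x th u = th + x u := if_pos hu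
    have e2 : nxt x (nxt x th u) (-u) = nxt x th u + x (-u) := if_pos h2
    rw [e2, e1, ho, ← sub_eq_add_neg, add_sub_cancel_right]
  · have h2 : ¬ Up (nxt x th u) := fun h3 => hu (h1.1 h3)
    have e1 : nxt x th u = th - x u := if_neg hu
    have e2 : nxt x (nxt x th u) (-u) = nxt x th u - x (-u) := if_neg h2
    rw [e2, e1, ho, sub_neg_eq_add, sub_add_cancel]

end

variable {E : Type*} [NormedAddCommGroup E] [InnerProductSpace ℝ E]

/-- phases modulo `2 q` of the facets: a facet with a phase `≠ 0` is centrally symmetric, a facet with a phase `≠ q` is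
a translate of the opposite facet, which has the opposite phase -/
structure Phases (P : HPoly E) (q : ℕ) (x : E → ZMod (2 * q)) : Prop where
  pos : 0 < q
  inv : ∀ u ∈ P.N, x u ≠ 0 → Csym P u
  tra : ∀ u ∈ P.N, x u ≠ q → Tra P u
  odd : ∀ u ∈ P.N, x u ≠ q → x (-u) = -x u

variable {q : ℕ} {x : E → ZMod (2 * q)} {P : HPoly E} {th : ZMod (2 * q)} {u : E}

open Classical in
/-- the vector of the gluing map -/
noncomputable def vec (P : HPoly E) (x : E → ZMod (2 * q)) (th : ZMod (2 * q)) (u : E) : E :=
  if u ∈ Inv x th then (if h : Csym P u then h.choose else 0) else (if h : Tra P u then h.2.choose else 0)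

/-- the gluing data of phases -/
noncomputable def Phases.glue (h : Phases P q x) : SGlue P (ZMod (2 * q)) where
  I := Inv x
  c := vec P x
  nx := nxt x
  s0 := 0
  inv := fun s u hu hI z hz => by
    have hc := h.inv u hu (ne_zero_of_inv hI)
    have e : vec P x s u = hc.choose := by
      unfold vec
      rw [if_pos hI, dif_pos hc]
    rw [e]
    exact hc.choose_spec z hz
  negN := fun s u hu hI => (h.tra u hu (ne_q_of_not_inv h.pos hI)).1
  tr := fun s u hu hI z hz => by
    have hc := h.tra u hu (ne_q_of_not_inv h.pos hI)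
    have e : vec P x s u = hc.2.choose := by
      unfold vec
      rw [if_neg hI, dif_pos hc]
    rw [e]
    exact (hc.2.choose_spec z).1 hz
  backI := fun s u hu hI => by
    have h1 := nxt_nxt hI
    refine ⟨?_, h1⟩
    show Up (nxt x (nxt x s u) u) ↔ ¬ Up (nxt x s u)
    rw [h1]
    have h2 := up_nxt hI
    tauto
  backT := fun s u hu hI => by
    have h1 := nxt_nxt' hI (h.odd u hu (ne_q_of_not_inv h.pos hI))
    refine ⟨?_, h1⟩
    show ¬ (Up (nxt x (nxt x s u) (-u)) ↔ ¬ Up (nxt x s u))
    rw [h1]
    have h2 := up_nxt' hI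
    tauto

theorem Phases.odd' (h : Phases P q x) (hu : u ∈ P.N) (hu' : -u ∈ P.N) : x (-u) = -x u := by
  by_cases h1 : x u = q
  · by_cases h2 : x (-u) = q
    · rw [h1, h2, neg_q]
    · have h3 := h.odd (-u) hu' h2
      rw [neg_neg] at h3
      rw [h3, neg_neg]
  · exact h.odd u hu h1

end Pool.FX56
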