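import Pool.Agent.FF79.Nec
import Pool.Agent.FF28.NotVar
import Pool.Agent.CC95.Pat

set_option autoImplicit false

/-!
# FX56/Fixed: the ridges of facets which do not vary

`cyc_seq`: the ridge condition for one sequence of flags, if the tiles around this ridge do not overlap.
`fixed_walk`: a tiling which is closed under the crossings of the facets outside of `V`: the ridge condition for the
sequences of flags whose exits are outside of `V`. `exists_glue_fixed`: gluing data which describe all crossings of the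
facets which do not vary.
-/

open Set Metric
open scoped RealInnerProductSpace

namespace Pool.FX56

open Pool.FF24 Pool.FF79 Pool.FF56 Pool.FF57 Pool.FF28

variable {E : Type*} [NormedAddCommGroup E] [InnerProductSpace ℝ E]

variable [FiniteDimensional ℝ E] {P : HPoly E}

open Classical in
/-- the ridge condition for one sequence of flags -/
theorem cyc_seq (g : Glue P) {a : ℕ → E × E} (ha : ∀ i, g.Cross (a i) (a (i + 1)))
    (hd : ∀ D : ℕ → ℝ × E, D 0 = (1, 0) → (∀ r, D (r + 1) = g.nb (a r).2 (D r)) →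
      ∀ r s, D r ≠ D s → Disjoint (interior (X (D r) '' P.body)) (interior (X (D s) '' P.body))) :
    a 3 = a 0 ∨ (a 4 = a 0 ∧ Even ((Finset.range 4).filter fun i => (a i).2 ∈ g.I).card) := by
  classical
  have hmem : ∀ r, (a r).1 ∈ P.N ∧ (a r).2 ∈ P.N := by
    intro r
    obtain ⟨-, -, -, y, -, hact, -⟩ := ha r
    have h1 : (a r).1 ∈ P.act y := by rw [hact]; simp
    have h2 : (a r).2 ∈ P.act y := by rw [hact]; simp
    exact ⟨h1.1, h2.1⟩
  have hne : ∀ r, (a r).1 ≠ (a r).2 := fun r => (ha r).1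
  have hfin : (Set.range a).Finite := by
    refine ((P.N.finite_toSet).prod (P.N.finite_toSet)).subset ?_
    rintro _ ⟨r, rfl⟩
    exact ⟨(hmem r).1, (hmem r).2⟩
  obtain ⟨m, hm, hper, hdist⟩ := min_period a g.Cross ha (fun x y z h h' => cross_fun g h h')
    (fun x y z h h' => cross_inj g h h') hfin
  obtain ⟨y₀, D, e, hy₀, hD0, hDs, hOrb, hcrd, he, he', hrec, hli⟩ := cycle_data g a ha
  obtain ⟨p, q, hpq, hp0, hq0, hp1, hq1, hdet⟩ := coords e hrec
  have hε : ∀ r, (D r).1 = 1 ∨ (D r).1 = -1 := fun r => Orb.sign g (hOrb r)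
  have hε0 : (D 0).1 = 1 := by rw [hD0]
  have hsq : ∀ r, (D r).1 * (D r).1 = 1 := by
    intro r
    rcases hε r with h | h <;> rw [h] <;> norm_num
  have hεs : ∀ r, ((a r).2 ∈ g.I ∧ (D (r + 1)).1 = -(D r).1) ∨
      ((a r).2 ∉ g.I ∧ (D (r + 1)).1 = (D r).1) := by
    intro r
    rw [hDs r]
    by_cases h : (a r).2 ∈ g.I
    · left
      refine ⟨h, ?_⟩
      simp [Glue.nb, h]
    · right
      refine ⟨h, ?_⟩
      simp [Glue.nb, h]
  have hperε : ∀ r, (D (r + m)).1 = (D m).1 * (D r).1 := by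
    intro r
    induction r with
    | zero => rw [zero_add, hε0, mul_one]
    | succ r ih =>
      have e1 : r + 1 + m = (r + m) + 1 := by ring
      rw [e1]
      have h1 := hεs (r + m)
      rw [hper r] at h1
      rcases h1 with ⟨h2, h3⟩ | ⟨h2, h3⟩ <;> rcases hεs r with ⟨h4, h5⟩ | ⟨h4, h5⟩
      · rw [h3, h5, ih]; ring
      · exact absurd h2 h4
      · exact absurd h4 h2
      · rw [h3, h5, ih]
  have hn1 : ∀ r, (a r).1 = (-(D r).1 * p r) • e 0 + (-(D r).1 * q r) • e 1 := by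
    intro r
    have h1 : (a r).1 = -(D r).1 • e r := by
      rw [he r, smul_neg, neg_smul, neg_neg, smul_smul, hsq r, one_smul]
    rw [h1]
    conv_lhs => rw [hpq r]
    rw [smul_add, smul_smul, smul_smul]
  have hn2 : ∀ r, (a r).2 = ((D r).1 * p (r + 1)) • e 0 + ((D r).1 * q (r + 1)) • e 1 := by
    intro r
    have h1 : (a r).2 = (D r).1 • e (r + 1) := by
      rw [he' r, smul_smul, hsq r, one_smul]
    rw [h1]
    conv_lhs => rw [hpq (r + 1)]
    rw [smul_add, smul_smul, smul_smul]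
  have hpere : ∀ r, p (r + m) = (D m).1 * p r ∧ q (r + m) = (D m).1 * q r := by
    intro r
    have h1 := hn1 (r + m)
    rw [hper r, hn1 r, hperε r] at h1
    have h2 := pair_coords hli h1
    rcases hε r with h3 | h3 <;> rcases hε m with h4 | h4 <;> rw [h3, h4] at h2 <;> rw [h4] <;>
      constructor <;> linarith [h2.1, h2.2]
  have hswap : ∀ r s, ¬ ((a r).1 = (a s).2 ∧ (a r).2 = (a s).1) := by
    rintro r s ⟨h1, h2⟩
    rw [hn1 r, hn2 s] at h1
    rw [hn2 r, hn1 s] at h2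
    obtain ⟨h3, h4⟩ := pair_coords hli h1
    obtain ⟨h5, h6⟩ := pair_coords hli h2
    have d1 := hdet r
    have d2 := hdet s
    have k1 : p r * q (r + 1) - p (r + 1) * q r =
        -((-(D r).1 * p r) * ((D r).1 * q (r + 1)) - ((D r).1 * p (r + 1)) * (-(D r).1 * q r)) := by
      have := hsq r
      linear_combination (-(p r * q (r + 1) - p (r + 1) * q r)) * this
    have k2 : p s * q (s + 1) - p (s + 1) * q s =
        -((-(D s).1 * p s) * ((D s).1 * q (s + 1)) - ((D s).1 * p (s + 1)) * (-(D s).1 * q s)) := by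
      have := hsq s
      linear_combination (-(p s * q (s + 1) - p (s + 1) * q s)) * this
    rw [h3, h4, h5, h6] at k1
    have k3 : p r * q (r + 1) - p (r + 1) * q r = -(p s * q (s + 1) - p (s + 1) * q s) := by
      rw [k1, k2]; ring
    linarith
  have hset : ∀ r s, ({(a r).1, (a r).2} : Set E) = {(a s).1, (a s).2} → a r = a s := by
    intro r s h
    rcases (Set.pair_eq_pair_iff.1 h) with h1 | h1
    · exact Prod.ext h1.1 h1.2
    · exact absurd h1 (hswap r s)
  have hmod : ∀ r, a (r % m) = a r := by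
    intro r
    have h1 : ∀ k r, a (r + k * m) = a r := by
      intro k
      induction k with
      | zero => intro r; simp
      | succ k ih =>
        intro r
        have : r + (k + 1) * m = (r + k * m) + m := by ring
        rw [this, hper, ih]
    conv_rhs => rw [← Nat.mod_add_div r m, mul_comm m]
    rw [h1]
  have key := planeNec m hm p q (fun r => (D r).1) hε hε0 hdet
    (fun r => ⟨hperε r, (hpere r).1, (hpere r).2⟩) ?_ ?_
  · obtain ⟨hm4, h4⟩ := key
    have hc : m = 1 ∨ m = 2 ∨ m = 3 ∨ m = 4 := by omega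
    rcases hc with rfl | rfl | rfl | rfl
    · left
      rw [hper 2, hper 1]
      exact hper 0
    · right
      refine ⟨?_, ?_⟩
      · rw [hper 2]
        exact hper 0
      · exact even_card_two _ (by rw [show (2 : ℕ) = 0 + 2 from rfl, hper 0])
          (by rw [show (3 : ℕ) = 1 + 2 from rfl, hper 1])
    · left
      exact hper 0
    · right
      exact ⟨hper 0, even_card_four _ (fun r => (D r).1) hε0 (h4 rfl) hεs⟩
  · intro r hr s hs hrs α β γ δ hα hβ hγ hδ h
    have h1 : α • (a r).1 + β • (a r).2 = γ • (a s).1 + δ • (a s).2 := by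
      rw [hn1 r, hn2 r, hn1 s, hn2 s]
      have e1 : α • ((-(D r).1 * p r) • e 0 + (-(D r).1 * q r) • e 1) +
          β • (((D r).1 * p (r + 1)) • e 0 + ((D r).1 * q (r + 1)) • e 1) =
          ((D r).1 * (-α * p r + β * p (r + 1))) • e 0 +
            ((D r).1 * (-α * q r + β * q (r + 1))) • e 1 := by
        module
      have e2 : γ • ((-(D s).1 * p s) • e 0 + (-(D s).1 * q s) • e 1) +
          δ • (((D s).1 * p (s + 1)) • e 0 + ((D s).1 * q (s + 1)) • e 1) =
          ((D s).1 * (-γ * p s + δ * p (s + 1))) • e 0 +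
            ((D s).1 * (-γ * q s + δ * q (s + 1))) • e 1 := by
        module
      rw [e1, e2, h.1, h.2]
    have h2 := cone_disj (hcrd r).1 (hcrd r).2 (hcrd s).1 (hcrd s).2 hα hβ hγ hδ h1
    exact hrs (hdist r hr s hs (hset r s h2))
  · rintro r s hrs hs Xx Yy ⟨h1, h2, h3, h4⟩
    obtain ⟨x, hx0, hx1⟩ := exists_dual hli Xx Yy
    have hin : ∀ t, ⟪e t, x⟫ = p t * Xx + q t * Yy := by
      intro t
      rw [hpq t, inner_add_left, real_inner_smul_left, real_inner_smul_left, hx0, hx1]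
    rw [← hin] at h1 h2 h3 h4
    obtain ⟨η₁, hη₁, w1⟩ := wedge_interior (hε r) (hcrd r).1 (hcrd r).2 (x := x)
      (by rw [he r, inner_neg_left] at h1; linarith) (by rw [he' r] at h2; exact h2)
    obtain ⟨η₂, hη₂, w2⟩ := wedge_interior (hε s) (hcrd s).1 (hcrd s).2 (x := x)
      (by rw [he s, inner_neg_left] at h3; linarith) (by rw [he' s] at h4; exact h4)
    have hη : 0 < min η₁ η₂ / 2 := by have := lt_min hη₁ hη₂; linarith
    have g1 := w1 (min η₁ η₂ / 2) hη (by have := min_le_left η₁ η₂; linarith)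
    have g2 := w2 (min η₁ η₂ / 2) hη (by have := min_le_right η₁ η₂; linarith)
    have hDD : D r = D s := by
      by_contra hDD
      exact Set.disjoint_left.1 (hd D hD0 hDs r s hDD) g1 g2
    have haa : a r = a s := by
      apply hset
      rw [← (hcrd r).2, ← (hcrd s).2, hDD]
    have hmm := hdist (r % m) (Nat.mod_lt _ hm) (s % m) (Nat.mod_lt _ hm) (by rw [hmod, hmod, haa])
    rcases hs with hs | ⟨hs1, hs2⟩
    · rw [Nat.mod_eq_of_lt hs, Nat.mod_eq_of_lt (by omega)] at hmm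
      omega
    · have hsr : s = r + m := by
        have f1 := Nat.mod_add_div r m
        have f2 := Nat.mod_add_div s m
        have g1 : r / m < 2 := Nat.div_lt_of_lt_mul (by omega)
        have g2 : s / m < 2 := Nat.div_lt_of_lt_mul (by omega)
        generalize r / m = kr at f1 g1
        generalize s / m = ks at f2 g2
        generalize r % m = ar at f1 hmm
        generalize s % m = as at f2 hmm
        subst hmm
        interval_cases kr <;> interval_cases ks <;> omega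
      have h5 := hperε r
      rw [← hsr, ← hDD, hs1] at h5
      rcases hε r with h6 | h6 <;> rw [h6] at h5 <;> norm_num at h5


omit [FiniteDimensional ℝ E] in
theorem cross_mem {P : HPoly E} {g : Glue P} {a b : E × E} (h : g.Cross a b) : a.1 ∈ P.N ∧ a.2 ∈ P.N := by
  obtain ⟨-, -, -, y, -, hy, -⟩ := h
  have h1 : a.1 ∈ P.act y := by rw [hy]; simp
  have h2 : a.2 ∈ P.act y := by rw [hy]; simp
  exact ⟨h1.1, h2.1⟩

open Classical in
/-- the ridge condition for the walks which leave all tiles through facets outside of `V` -/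
theorem fixed_walk {T : Set (ℝ × E)} (hT : IsFF P T) (g : Glue P)
    {V : Set E} (hnb : ∀ τ ∈ T, ∀ u ∈ P.N, u ∉ V → g.nb u τ ∈ T) {a : ℕ → E × E}
    (ha : ∀ i, g.Cross (a i) (a (i + 1))) (hV : ∀ i, (a i).2 ∉ V) :
    a 3 = a 0 ∨ (a 4 = a 0 ∧ Even ((Finset.range 4).filter fun i => (a i).2 ∈ g.I).card) := by
  refine cyc_seq g ha fun D hD0 hDs r s hne => ?_
  obtain ⟨τ₀, h0, -⟩ := hT.cover 0
  have hs := hT.sign τ₀ h0
  have hmem : ∀ r, cmpC τ₀ (D r) ∈ T := by
    intro r
    induction r with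
    | zero =>
      rw [hD0]
      have e : cmpC τ₀ ((1 : ℝ), (0 : E)) = τ₀ := by
        refine Prod.ext ?_ ?_
        · change τ₀.1 * 1 = τ₀.1
          ring
        · change τ₀.1 • (0 : E) + τ₀.2 = τ₀.2
          rw [smul_zero, zero_add]
      rw [e]
      exact h0
    | succ r ih =>
      rw [hDs r, cmpC_nb]
      exact hnb _ ih _ (cross_mem (ha r)).2 (hV r)
  have hd := hT.disj _ (hmem r) _ (hmem s) (fun h => hne (cmpC_inj hs h))
  rw [Set.disjoint_left]
  intro p hp hp'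
  have him : ∀ ρ : ℝ × E, X (cmpC τ₀ ρ) '' P.body = X τ₀ '' (X ρ '' P.body) := by
    intro ρ
    rw [Set.image_image]
    exact Set.image_congr fun z _ => cmpC_X τ₀ ρ z
  rw [him, him] at hd
  exact Set.disjoint_left.1 hd (cmpC_interior hs hp) (cmpC_interior hs hp')

omit [FiniteDimensional ℝ E] in
theorem c_uniqI {u c c' : E} (hu : u ∈ P.N) (h : ∀ z ∈ P.fc u, c - z ∈ P.fc u)
    (h' : ∀ z ∈ P.fc u, c' - z ∈ P.fc u) : c = c' := by
  have h1 : c - c' = 0 := tr_zero (CC95.fc_ne' P hu) (CC95.fc_bdd' P u) fun z hz => by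
    have h2 := h _ (h' z hz)
    have e : z + (c - c') = c - (c' - z) := by abel
    rw [e]
    exact h2
  exact sub_eq_zero.1 h1

omit [FiniteDimensional ℝ E] in
theorem c_uniqT {u c c' b : E} (hu : u ∈ P.N) (h : ∀ z ∈ P.fc u, z + c ∈ P.fc (-u))
    (h' : ∀ z ∈ P.fc u, z + c' ∈ P.fc (-u)) (hb : ∀ z ∈ P.fc (-u), z + b ∈ P.fc u) : c = c' := by
  have h1 : c + b = 0 := tr_zero (CC95.fc_ne' P hu) (CC95.fc_bdd' P u) fun z hz => by
    rw [← add_assoc]
    exact hb _ (h z hz)
  have h2 : c' + b = 0 := tr_zero (CC95.fc_ne' P hu) (CC95.fc_bdd' P u) fun z hz => by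
    rw [← add_assoc]
    exact hb _ (h' z hz)
  exact add_right_cancel (h1.trans h2.symm)

omit [FiniteDimensional ℝ E] in
/-- a crossing is the crossing of the gluing data if the type is right -/
theorem crs_nb {T : Set (ℝ × E)} (hT : IsFF P T) (g : Glue P) {τ σ : ℝ × E} {u : E}
    (h : Crs P T τ u σ) (hs : u ∈ g.I ↔ σ.1 = -τ.1) : σ = g.nb u τ := by
  obtain ⟨hτ, hσ, hne, hu, v, hv, hF⟩ := h
  obtain ⟨g', hnb', -⟩ := glue_at hT hτ hσ hne hu hv hF
  have ht0 : τ.1 ≠ -τ.1 := by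
    rcases hT.sign τ hτ with h1 | h1 <;> rw [h1] <;> norm_num
  have hI' : u ∈ g'.I ↔ σ.1 = -τ.1 := by
    constructor
    · intro h1
      rw [← hnb', FF28.sgn_nb_in h1]
    · intro h1
      by_contra h2
      rw [← hnb', FF28.sgn_nb_notin h2] at h1
      exact ht0 h1
  by_cases hI : u ∈ g.I
  · have h1 : u ∈ g'.I := hI'.2 (hs.1 hI)
    have hc : g'.c u = g.c u := c_uniqI hu (g'.inv u hu h1) (g.inv u hu hI)
    rw [← hnb']
    unfold Glue.nb
    rw [if_pos h1, if_pos hI, hc]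
  · have h1 : u ∉ g'.I := fun h2 => hI (hs.2 (hI'.1 h2))
    have hN := g'.negN u hu h1
    have hc : g'.c u = g.c u := c_uniqT hu (g'.tr u hu h1) (g.tr u hu hI) (b := g'.c (-u)) (by
      intro z hz
      have h2 := g'.tr (-u) hN (g'.negI u hu h1) z hz
      rwa [neg_neg] at h2)
    rw [← hnb']
    unfold Glue.nb
    rw [if_neg h1, if_neg hI, hc]

omit [FiniteDimensional ℝ E] in
theorem exists_crs {T : Set (ℝ × E)} (hT : IsFF P T) {τ : ℝ × E} (hτ : τ ∈ T) {u : E} (hu : u ∈ P.N) :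
    ∃ σ, Crs P T τ u σ := by
  obtain ⟨σ, hσ, hne, v, hv, hF⟩ := hT.facet τ hτ u hu
  exact ⟨σ, hτ, hσ, hne, hu, v, hv, hF⟩

omit [FiniteDimensional ℝ E] in
theorem varies_neg' {T : Set (ℝ × E)} {a : E} (hv : Varies P T a) : Varies P T (-a) := by
  obtain ⟨⟨τ, σ, u, h1, h2, h3⟩, τ', σ', u', h1', h2', h3'⟩ := hv
  exact ⟨⟨τ, σ, u, by rw [neg_neg]; exact h1.symm, h2, h3⟩, τ', σ', u',
    by rw [neg_neg]; exact h1'.symm, h2', h3'⟩

omit [FiniteDimensional ℝ E] in
/-- GLUING DATA FOR THE FACETS WHICH DO NOT VARY (the varying facets are glued by translations) -/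
theorem exists_glue_fixed {T : Set (ℝ × E)} (hT : IsFF P T) : ∃ g : Glue P,
    (∀ u ∈ g.I, ¬ Varies P T u) ∧
    (∀ τ σ u, Crs P T τ u σ → ¬ Varies P T u → (u ∈ g.I ↔ σ.1 = -τ.1) ∧ σ = g.nb u τ) ∧
    ∀ τ ∈ T, ∀ u ∈ P.N, ¬ Varies P T u → g.nb u τ ∈ T := by
  classical
  have hcI : ∀ u, ∃ c : E, (u ∈ P.N → Csym P u → ∀ z ∈ P.fc u, c - z ∈ P.fc u) := by
    intro u
    by_cases h : Csym P u
    · obtain ⟨c, hc⟩ := h
      exact ⟨c, fun _ _ => hc⟩
    · exact ⟨0, fun _ h' => absurd h' h⟩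
  have hcT : ∀ u, ∃ c : E, (Tra P u → ∀ z ∈ P.fc u, z + c ∈ P.fc (-u)) := by
    intro u
    by_cases h : Tra P u
    · obtain ⟨-, c, hc⟩ := h
      exact ⟨c, fun _ z hz => (hc z).1 hz⟩
    · exact ⟨0, fun h' => absurd h' h⟩
  choose cI hcI using hcI
  choose cT hcT using hcT
  obtain ⟨τ₀, hτ₀, -⟩ := hT.cover 0
  have hneg : ∀ τ ∈ T, τ.1 ≠ -τ.1 := by
    intro τ hτ
    rcases hT.sign τ hτ with h1 | h1 <;> rw [h1] <;> norm_num
  set I : Set E := {u | ¬ Varies P T u ∧ ∃ τ σ, Crs P T τ u σ ∧ σ.1 = -τ.1} with hIdef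
  have hTra : ∀ u ∈ P.N, u ∉ I → Tra P u := by
    intro u hu hI
    by_cases hv : Varies P T u
    · exact (varies_data hT hv).2.1
    · obtain ⟨σ, hc⟩ := exists_crs hT hτ₀ hu
      rcases crs_cases hT hc with ⟨hs, -⟩ | ⟨-, h⟩
      · exact absurd ⟨hv, τ₀, σ, hc, hs⟩ hI
      · exact h
  have hCs : ∀ u ∈ I, Csym P u := by
    rintro u ⟨hv, τ, σ, hc, hs⟩
    rcases crs_cases hT hc with ⟨-, h⟩ | ⟨hs', -⟩
    · exact h
    · rw [hs'] at hs
      exact absurd hs (hneg τ hc.1)
  have hnegI : ∀ u ∈ P.N, u ∉ I → -u ∉ I := by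
    rintro u hu hI ⟨hv, τ, σ, hc, hs⟩
    have hv' : ¬ Varies P T u := fun h => hv (varies_neg' h)
    obtain ⟨σ', hc'⟩ := exists_crs hT hτ₀ hu
    rcases crs_cases hT hc' with ⟨hs', -⟩ | ⟨hs', -⟩
    · exact hI ⟨hv', τ₀, σ', hc', hs'⟩
    · exact hv' ⟨⟨τ₀, σ', u, Or.inl rfl, hc', hs'⟩, τ, σ, -u, Or.inr rfl, hc, hs⟩
  let g : Glue P := ⟨I, fun u => if u ∈ I then cI u else cT u, fun u hu hI z hz => by
      rw [if_pos hI]
      exact hcI u hu (hCs u hI) z hz, fun u hu hI => (hTra u hu hI).1, hnegI, fun u hu hI z hz => by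
      rw [if_neg hI]
      exact hcT u (hTra u hu hI) z hz⟩
  have key : ∀ τ σ u, Crs P T τ u σ → ¬ Varies P T u → (u ∈ g.I ↔ σ.1 = -τ.1) ∧ σ = g.nb u τ := by
    intro τ σ u hc hv
    have h1 : u ∈ g.I ↔ σ.1 = -τ.1 := by
      constructor
      · rintro ⟨-, τ', σ', hc', hs'⟩
        rcases crs_cases hT hc with ⟨hs, -⟩ | ⟨hs, -⟩
        · exact hs
        · exact absurd ⟨⟨τ, σ, u, Or.inl rfl, hc, hs⟩, τ', σ', u, Or.inl rfl, hc', hs'⟩ hv
      · intro hs
        exact ⟨hv, τ, σ, hc, hs⟩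
    exact ⟨h1, crs_nb hT g hc h1⟩
  refine ⟨g, fun u hu => hu.1, key, ?_⟩
  intro τ hτ u hu hv
  obtain ⟨σ, hc⟩ := exists_crs hT hτ hu
  rw [← (key τ σ u hc hv).2]
  exact hc.2.1

end Pool.FX56
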